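import Pool.Agent.K7.H61.HD.Mil
import Pool.Agent.K7.H61.HD.Io

set_option autoImplicit false

/-!
# Full Hausdorff dimension at the record scale: parameters for which all terms lie in record gaps

Let `f(x) = log x (log₂ x)² log₄ x / (log₃ x)²`, the size of the largest gaps between consecutive primes
that are known to occur up to `x`. The starting files `MP_7ba156_nt.MillsTypeGaps` and
`RecordGapsNearPowers` consider the `α` for which all large terms (respectively infinitely many terms) of a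
sequence `Y n * α ^ (v n)` have no prime within `c (1 - t) f(y)`; the radius degenerates as the dimension `t`
tends to `1`, and dimension `1` is only reached for radii `o(f(y))`. Here the dimension is exactly `1` at
the record scale itself, for more general sequences (no lacunarity of the exponents), for arbitrary patterns
of record size in prescribed residue classes, and for the Mills type numbers.

Method: the evenly spaced centres of the starting construction, which lose a power of the length at every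
stage, are replaced by all the centres provided by the frequency theorem (`Pool.Agent.K7.H61.RF`): every
interval of length `X` contains at least `X ^ (1 - o(1))` of them. They may be clustered, so every stage of the
Cantor construction has two levels, evenly spaced cells of length `y ^ ρ` with `ρ` depending on `δ` only, and
the possibly clustered centres inside the cells.
-/

open Filter Topology Set

namespace Pool.Agent.Results.MP_3bc45c_nt.FullDimensionAtRecordScale

/-- The record scale `f(x) = log x (log₂ x)² log₄ x / (log₃ x)²` (iterated natural logarithms). -/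
noncomputable def f (x : ℝ) : ℝ :=
  Real.log x * (Real.log (Real.log x)) ^ 2 * Real.log (Real.log (Real.log (Real.log x))) /
    (Real.log (Real.log (Real.log x))) ^ 2

/-- There is no prime within `T` of `y`. -/
def PrimeFree (T y : ℝ) : Prop := ∀ p : ℕ, p.Prime → T < |(p : ℝ) - y|

/-- The pairs of sequences admitted: for large `n` we have `Y n > 0` and `v n ≥ 1`; `log (Y n) + v n` tends
to infinity; and `log (Y n) ≥ -ε (log (Y n) + v n)` for every `ε > 0` and all large `n` (this holds if `Y n` is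
bounded below by a positive constant). -/
def Admissible (Y v : ℕ → ℝ) : Prop :=
  (∀ᶠ n in atTop, 0 < Y n ∧ 1 ≤ v n) ∧ Tendsto (fun n => Real.log (Y n) + v n) atTop atTop ∧
    ∀ ε : ℝ, 0 < ε → ∀ᶠ n in atTop, -(ε * (Real.log (Y n) + v n)) ≤ Real.log (Y n)

/-- The terms `y n = Y n * α ^ (v n)` satisfy `log y (n + 1) ≥ (1 + δ) log y n - C` for large `n`. -/
def Grows (δ C : ℝ) (Y v : ℕ → ℝ) (α : ℝ) : Prop :=
  ∀ᶠ n in atTop, (1 + δ) * Real.log (Y n * α ^ (v n)) - C ≤ Real.log (Y (n + 1) * α ^ (v (n + 1)))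

/-- `Z` is a set of at most `c f(y)` integers `|z| ≤ log y (log log y) ^ A`. -/
def Fits (A : ℕ) (c y : ℝ) (Z : Finset ℤ) : Prop :=
  (∀ z ∈ Z, |(z : ℝ)| ≤ Real.log y * (Real.log (Real.log y)) ^ A) ∧ (Z.card : ℝ) ≤ c * f y

/-- The integer part `m` of `y` is congruent to `r` modulo `D`, and all `m + z`, `z ∈ Z`, have a prime factor
`p ≤ y ^ (1/100)` with `p < |m + z|`. -/
def Composites (D : ℕ) (r : ℤ) (Z : Finset ℤ) (y : ℝ) : Prop :=
  ⌊y⌋ ≡ r [ZMOD D] ∧ ∀ z ∈ Z, ∃ p : ℕ, p.Prime ∧ (p : ℝ) ≤ y ^ (1 / 100 : ℝ) ∧ (p : ℤ) ∣ ⌊y⌋ + z ∧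
    (p : ℤ) < |⌊y⌋ + z|

/-- **Windows.** There is `c > 0` such that

* for `δ > 0`, `1 ≤ u < w` and all admissible sequences growing with exponent `1 + δ` for the `α ∈ (u, w)`, the
  set of the `α ∈ (u, w)` such that for ALL large `n` there is no prime within `c δ / (1 + δ) f(y)` of
  `y = Y n * α ^ (v n)` has Hausdorff dimension `1`;
* for `b > 1` and every `x₁` the set of the `A > max(1, x₁)` such that for ALL `k ≥ 0` there is no prime within
  `c (b - 1) / b f(y)` of `y = A ^ (b ^ k)` has Hausdorff dimension `1`;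
* for every countable family of admissible sequences and `1 ≤ u < w` the set of the `α ∈ (u, w)` such that for
  every `i` there are infinitely many `n` without a prime within `c / 2 f(y)` of `y = Y i n * α ^ (v i n)` has
  Hausdorff dimension `1`.

**Patterns.** For all `A` and `D ≥ 1` there is `c > 0` such that for `1 < u < w` and all residues `r` and patterns
`Z`

* for an admissible sequence growing at `u` with exponent `1 + δ` and patterns `Z n` of at most
  `c δ / (1 + δ) f(Y n * u ^ (v n))` integers, the set of the `α ∈ [u, w]` with `Composites D (r n) (Z n) y`,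
  `y = Y n * α ^ (v n)`, for ALL large `n` has Hausdorff dimension `1`;
* for a countable family of admissible sequences and patterns `Z i n` of at most `c / 2 f(Y i n * u ^ (v i n))`
  integers the set of the `α ∈ [u, w]` such that for every `i` there are infinitely many `n` with
  `Composites D (r i n) (Z i n) y`, `y = Y i n * α ^ (v i n)`, has Hausdorff dimension `1`. -/
theorem result :
    (∃ c : ℝ, 0 < c ∧
      (∀ (δ C : ℝ) (Y v : ℕ → ℝ) (u w : ℝ), 0 < δ → Admissible Y v → 1 ≤ u → u < w →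
        (∀ α ∈ Ioo u w, Grows δ C Y v α) →
        dimH {α : ℝ | α ∈ Ioo u w ∧ ∀ᶠ n in atTop,
          PrimeFree (c * (δ / (1 + δ)) * f (Y n * α ^ (v n))) (Y n * α ^ (v n))} = 1) ∧
      (∀ b x₁ : ℝ, 1 < b → dimH {A : ℝ | x₁ < A ∧ 1 < A ∧ ∀ k : ℕ,
          PrimeFree (c * ((b - 1) / b) * f (A ^ (b ^ k))) (A ^ (b ^ k))} = 1) ∧
      ∀ (Y v : ℕ → ℕ → ℝ) (u w : ℝ), (∀ i, Admissible (Y i) (v i)) → 1 ≤ u → u < w →
        dimH {α : ℝ | α ∈ Ioo u w ∧ ∀ i, ∃ᶠ n in atTop,
          PrimeFree (c / 2 * f (Y i n * α ^ (v i n))) (Y i n * α ^ (v i n))} = 1) ∧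
    ∀ A D : ℕ, 0 < D → ∃ c : ℝ, 0 < c ∧
      (∀ (δ C : ℝ) (Y v : ℕ → ℝ) (u w : ℝ) (r : ℕ → ℤ) (Z : ℕ → Finset ℤ), 0 < δ → Admissible Y v →
        1 < u → u < w → Grows δ C Y v u →
        (∀ᶠ n in atTop, Fits A (c * (δ / (1 + δ))) (Y n * u ^ (v n)) (Z n)) →
        dimH {α : ℝ | α ∈ Icc u w ∧ ∀ᶠ n in atTop, Composites D (r n) (Z n) (Y n * α ^ (v n))} = 1) ∧
      ∀ (Y v : ℕ → ℕ → ℝ) (u w : ℝ) (r : ℕ → ℕ → ℤ) (Z : ℕ → ℕ → Finset ℤ),
        (∀ i, Admissible (Y i) (v i)) → 1 < u → u < w →
        (∀ i, ∀ᶠ n in atTop, Fits A (c / 2) (Y i n * u ^ (v i n)) (Z i n)) →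
        dimH {α : ℝ | α ∈ Icc u w ∧ ∀ i, ∃ᶠ n in atTop,
          Composites D (r i n) (Z i n) (Y i n * α ^ (v i n))} = 1 := by
  have hgrow : ∀ (δ C : ℝ) (Y v : ℕ → ℝ) (α : ℝ), Admissible Y v → 0 < α → Grows δ C Y v α →
      ∀ᶠ n in atTop, (1 + δ) * Pool.Agent.R485.RG.G Y v α n - C ≤ Pool.Agent.R485.RG.G Y v α (n + 1) := by
    intro δ C Y v α hA hα hg
    have h1 := hA.1
    have h2 : ∀ᶠ n in atTop, 0 < Y (n + 1) := by
      rw [Filter.eventually_atTop] at h1 ⊢
      obtain ⟨N, hN⟩ := h1
      exact ⟨N, fun n hn => (hN (n + 1) (by omega)).1⟩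
    filter_upwards [hg, h1, h2] with n h3 h4 h5
    rw [← Pool.Agent.R485.RG.exp_G h4.1 hα, ← Pool.Agent.R485.RG.exp_G h5 hα, Real.log_exp,
      Real.log_exp] at h3
    exact h3
  have hcomp : ∀ (D : ℕ) (r : ℤ) (Z : Finset ℤ) (y : ℝ), Pool.Agent.K7.H61.HD.Good D r y Z ⌊y⌋ →
      Composites D r Z y := fun D r Z y h =>
    ⟨(Int.modEq_iff_dvd.2 h.1).symm, h.2⟩
  refine ⟨?_, fun A D hD => ?_⟩
  · obtain ⟨c, hc, h⟩ := Pool.Agent.K7.H61.HD.lac_win
    refine ⟨c, hc, ?_, ?_, ?_⟩
    · intro δ C Y v u w hδ hA hu huw hg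
      have hm : (u + w) / 2 ∈ Ioo u w := ⟨by linarith, by linarith⟩
      exact h Y v hA δ C hδ u w hu huw (hgrow δ C Y v _ hA (by linarith [hm.1]) (hg _ hm))
    · intro b x₁ hb
      exact Pool.Agent.K7.H61.HD.mills_dim h hb x₁
    · intro Y v u w hA hu huw
      exact Pool.Agent.K7.H61.HD.io_win h Y v hA hu huw
  · obtain ⟨c, hc, h⟩ := Pool.Agent.K7.H61.HD.lac_pat A D hD
    refine ⟨c, hc, ?_, ?_⟩
    · intro δ C Y v u w r Z hδ hA hu huw hg hZ
      have key := h Y v hA δ C hδ u w hu huw (hgrow δ C Y v _ hA (by linarith) hg) r Z hZ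
      refine le_antisymm ((dimH_mono (subset_univ _)).trans (le_of_eq Real.dimH_univ)) ?_
      rw [← key]
      apply dimH_mono
      rintro α ⟨hα, hαn⟩
      exact ⟨hα, hαn.mono fun n hn => hcomp _ _ _ _ hn⟩
    · intro Y v u w r Z hA hu huw hZ
      have key := Pool.Agent.K7.H61.HD.io_pat h Y v hA hu huw r Z hZ
      refine le_antisymm ((dimH_mono (subset_univ _)).trans (le_of_eq Real.dimH_univ)) ?_
      rw [← key]
      apply dimH_mono
      rintro α ⟨hα, hαn⟩
      exact ⟨hα, fun i => (hαn i).mono fun n hn => hcomp _ _ _ _ hn⟩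

end Pool.Agent.Results.MP_3bc45c_nt.FullDimensionAtRecordScale
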