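import Pool.Agent.K7.H60.AAFin

set_option autoImplicit false

/-!
# The largest of `M` consecutive prime gaps is unbounded on the scale of the average, in probability

For every `K` and `ε > 0` there is `M` such that, for all large `N`, all but at most `ε N` of the
indices `j < N` satisfy `max (d_j, …, d_(j+M-1)) ≥ K log p_j`, where `d_j = p_(j+1) - p_j`.
Equivalently, if `M(j) → ∞` (arbitrarily slowly) then
`max (d_j, …, d_(j+M(j)-1)) / log p_j → ∞` on a set of indices `j` of density one.

In Cramér's model the largest of `M` consecutive normalised gaps is about `log M`, and Cramér's
conjecture concerns `M = π(X)`.  Long gaps `d_j ≥ K log p_j` were known for a positive proportion of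
the indices; here they are found near almost every index.

Method.  The weights `V(n)²` of `Pool.Agent.H361R2.PP` (many Selberg type weights on different
scales, attached to all families of positions of the window), which see almost no prime in
`(n, n + K log X]`, are shown to be equidistributed in almost all intervals of length `T log X`: their
correlations `∑ V(n)² V(n + h)²` are computed asymptotically for `K log X < h ≤ T log X`
(`Pool.Agent.K7.H60.pairW`, `smp`), and the fourth moment controls the small `h`.  Chebyshev's
inequality gives that for almost all `x` the interval `(x, x + T log X]` contains an `n` with no prime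
in `(n, n + K log X]` (`aai`); a sieve bound for the second moment of the number of primes in short
intervals transfers this from integers to primes.
-/

namespace Pool.Agent.Results.MP_3bc45c_nt.LocalMaximaOfGaps

/-- The `j`-th prime, numbered from `p 0 = 2`. -/
noncomputable def p (j : ℕ) : ℕ := Nat.nth Nat.Prime j

/-- The gap after the `j`-th prime. -/
noncomputable def d (j : ℕ) : ℝ := (p (j + 1) : ℝ) - p j

open Classical in
/-- **The maximum of `M` consecutive gaps.**  For all `K, ε > 0` there are `M` and `N₀` such that for
every `N ≥ N₀` at most `ε N` of the indices `j < N` have `d_(j+i) < K log p_j` for all `i < M`. -/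
theorem result : ∀ K ε : ℝ, 0 < K → 0 < ε → ∃ M N₀ : ℕ, ∀ N : ℕ, N₀ ≤ N →
    (((Finset.range N).filter
      (fun j => ∀ i < M, d (j + i) < K * Real.log (p j))).card : ℝ) ≤ ε * N := by
  intro K ε hK hε
  obtain ⟨M, N₀, h⟩ := Pool.Agent.K7.H60.aap K ε hK hε
  refine ⟨M, N₀, fun N hN => ?_⟩
  refine le_trans (le_of_eq ?_) (h N hN)
  congr 2
  ext j
  simp only [Finset.mem_filter]
  rfl

end Pool.Agent.Results.MP_3bc45c_nt.LocalMaximaOfGaps
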