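import Pool.Agent.K7.H60.TL.RA

set_option autoImplicit false

/-! # Prime gaps much longer than average in almost all intervals of length `exp ((log x) ^ θ)`

For every fixed `0 < θ < 1` almost every interval `(x, x + exp ((log x) ^ θ)]` contains a run of at least
`c log x log log x` consecutive integers without a prime: `c log log x` times the average gap.  The
number of exceptional `x < X` is at most `X / (log X) ^ A`, for any fixed `A`.

Method: see Pool/Agent/K7/H60/TL (hierarchical random assignment of the large primes to the integers
left by a greedy sieve by the primes up to `(log X) ^ (θ / 2)`, and a second moment localised in short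
intervals). -/

namespace Pool.Agent.Results.MP_3bc45c_nt.LongGapsVeryShortIntervals

open Classical in
/-- For all `0 < θ < 1` and `A` there are `c > 0` and `X₀` such that for every `X ≥ X₀` all but at
most `X / (log X) ^ A` of the integers `0 ≤ x < X` have the following property: the interval
`(x, x + exp ((log x) ^ θ)]` contains integers `n, m` with `m - n ≥ c log x log log x` and no prime in
`[n, m]`. -/
theorem result (θ : ℝ) (hθ : 0 < θ) (hθ1 : θ < 1) (A : ℕ) : ∃ c : ℝ, 0 < c ∧
    ∃ X₀ : ℕ, ∀ X : ℕ, X₀ ≤ X →
    (((Finset.range X).filter (fun x : ℕ => ¬ ∃ n m : ℕ, x < n ∧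
      (m : ℝ) ≤ x + Real.exp ((Real.log x) ^ θ) ∧
      c * Real.log x * Real.log (Real.log x) ≤ (m : ℝ) - n ∧
      ∀ k ∈ Finset.Icc n m, ¬ k.Prime)).card : ℝ) ≤ X / (Real.log X) ^ A :=
  Pool.Agent.K7.H60.TL.runs_very_short θ hθ hθ1 A

end Pool.Agent.Results.MP_3bc45c_nt.LongGapsVeryShortIntervals
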