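import Pool.Agent.K7.H60.TL.RB

set_option autoImplicit false

/-! # Prime gaps of record size in almost all intervals of length `x ^ o(1)`

Let `f(x) = log x (log₂ x)² log₄ x / (log₃ x)²`, the size of the largest gaps between consecutive primes
that are known to occur up to `x` (starting file `RecordGaps`).  For every fixed `K` almost every interval
`(x, x + exp (log x / (log log x) ^ K)]` contains a run of at least `c f(x)` consecutive integers without
a prime; the number of exceptional `x < X` is at most `X / (log X) ^ A`, for any fixed `A`.

Method.  The random assignment of the primes `p > (log X) ^ B` to the integers left by the Erdős-Rankin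
sieve (Pool/Agent/H256R2/SC) is replaced by a hierarchy of densities at `≍ log log X` scales whose lowest
scale is `exp u₀` with `u₀` a power of `log log X`; a second moment localised in intervals
(pair correlations computed by a tensor power of the assignment) shows that the weight is spread evenly over
almost all short intervals.  New modules: Pool/Agent/K7/H60/TL. -/

namespace Pool.Agent.Results.MP_3bc45c_nt.RecordGapsShortIntervals

open Classical in
/-- For all natural numbers `K` and `A` there are `c > 0` and `X₀` such that for every `X ≥ X₀` all but at
most `X / (log X) ^ A` of the integers `0 ≤ x < X` have the following property: the interval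
`(x, x + exp (log x / (log log x) ^ K)]` contains integers `n, m` with
`m - n ≥ c log x (log₂ x)² log₄ x / (log₃ x)²` and no prime in `[n, m]`. -/
theorem result (K A : ℕ) : ∃ c : ℝ, 0 < c ∧ ∃ X₀ : ℕ, ∀ X : ℕ, X₀ ≤ X →
    (((Finset.range X).filter (fun x : ℕ => ¬ ∃ n m : ℕ, x < n ∧
      (m : ℝ) ≤ x + Real.exp (Real.log x / (Real.log (Real.log x)) ^ K) ∧
      c * (Real.log x * (Real.log (Real.log x)) ^ 2 *
        Real.log (Real.log (Real.log (Real.log x))) /
          (Real.log (Real.log (Real.log x))) ^ 2) ≤ (m : ℝ) - n ∧
      ∀ k ∈ Finset.Icc n m, ¬ k.Prime)).card : ℝ) ≤ X / (Real.log X) ^ A :=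
  Pool.Agent.K7.H60.TL.runs_rankin K A

end Pool.Agent.Results.MP_3bc45c_nt.RecordGapsShortIntervals
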